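import Pool.Agent.H52.TL.Trace
import Pool.Agent.H52.TL.Conv

/-!
# One power of `p` decides whether a Hilbert newform has an associated abelian variety

Let `F` be a number field, `S` a finite set of prime numbers, `p` a prime number, `k` a finite
extension of `ℚ_p` with ring of integers `O`, `E` a number field in `k`, and `n`, `N`, `w` natural
numbers.  There are a finite set `T` of prime numbers and ONE natural number `m` with the following
property.  Let `ρ` be an irreducible `n`-dimensional representation of `G_F` over `k`, for example the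
representation of a Hilbert newform `f` of parallel weight `2` (`n = 2`, `w = 1`), and let `W` be a
representation of dimension at most `N` with the stable lattice `O ^ N'`, for example
`H^1(B, ℤ_p) ⊗ O`, the dual of the Tate module, for an abelian variety `B` over `F` with good
reduction outside `S` (`N' = 2 dim B`, `w = 1`).  Both are continuous and unramified outside `p` and
`S`, with Frobenius polynomials over `E` which are integral and pure of weight `w`; this is needed
only at the places above `T`.  Then `ρ` is a subquotient of `W` if and only if `ρ` occurs in `W` modulo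
`p ^ m`: for some stable lattice `Λ` of `ρ`, every element of the group ring `O[G_F]` which kills
`O ^ N' / p ^ m` (for an abelian variety: the dual of the group of the `p ^ m`-torsion points of `B`,
tensored with `O`) kills `Λ / p ^ m`.  In this case `ρ` occurs in `W` modulo all powers of `p`.

The condition modulo `p ^ m` says that `Λ / p ^ m` is a subquotient of a direct sum of finitely many
copies of `O ^ N' / p ^ m`: the quotient `A` of the group ring by the elements which kill this module is
finite and acts faithfully, so that `A` embeds in a direct sum of copies, and every finite `A`-module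
is a quotient of a direct sum of copies of `A`.

Nothing is assumed at the places above `p`, and `W` need not be semisimple.  For a newform `f` with
level supported in `S` it follows with the theorems of Faltings that `f` has an associated abelian
variety if and only if its representation modulo `p ^ m` occurs in this sense in the
`p ^ m`-torsion points of one abelian variety over `F` of dimension at most `g` with good reduction
outside `S`, where `g` is any number with `[K_f : ℚ] ≤ g`, and `m` depends only on `F`, `S`, `p`, `k`,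
the field of the coefficients of `f`, and `g`.

The proof: by Faltings's argument (`FinitePropagation` in `MP_f68ac8_nt`) only finitely many pairs
of trace functions are possible.  If `ρ` is not a subquotient of `W` there is an element of the
group algebra with eigenvalue `1` on `ρ` which acts as `0` on `W`, and some power of it acts as `0` on
all representations with the trace of `W`.
-/

set_option autoImplicit false

open NumberField Module Polynomial

namespace Pool.Agent.Results.MP_e1ffa3_nt.OneTorsionLevel

attribute [local instance 10] DivisionRing.toRatAlgebra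

/-- the absolute Galois group of `ℚ` -/
abbrev GQ : Type := Gal(AlgebraicClosure ℚ/ℚ)

/-- the ring of all algebraic integers -/
abbrev ZBar : Type := 𝓞 (AlgebraicClosure ℚ)

/-- the number fields, as subfields of the algebraic closure of `ℚ`; the absolute Galois group of
`F` is `F.fixingSubgroup` -/
abbrev Sub : Type := IntermediateField ℚ (AlgebraicClosure ℚ)

/-- `τ` lies in the inertia group at the maximal ideal `P` of the ring of all algebraic integers -/
def Inertia (P : Ideal ZBar) (τ : GQ) : Prop := ∀ x : ZBar, τ • x - x ∈ P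

/-- the number of elements of the residue field of `F` at the place `v` -/
noncomputable def norm {F : Sub} (v : Ideal (𝓞 F)) : ℕ := Nat.card (𝓞 F ⧸ v)

/-- `σ` in `G_F` is a (geometric) Frobenius element at the maximal ideal `P` of the ring of all
algebraic integers: it induces the inverse of `x ↦ x ^ N` on the residue field of `P`, where `N` is
the number of elements of the residue field of `F` at the place below `P` -/
def Frobenius {F : Sub} (P : Ideal ZBar) (σ : F.fixingSubgroup) : Prop :=
  ∀ x : ZBar, x - ((σ : GQ) • x) ^ norm (P.under (𝓞 F)) ∈ P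

/-- `f` comes from a polynomial over the number field `E` with integral coefficients which is pure of
weight `w` at places with residue fields of `N` elements: all roots of all its complex conjugates
have absolute value `N ^ (w / 2)` -/
def IntegralPure {k E : Type} [Field k] [Field E] (ι : E →+* k) (w N : ℕ) (f : k[X]) : Prop :=
  ∃ g : E[X], g.map ι = f ∧ (∀ i, IsIntegral ℤ (g.coeff i)) ∧
    ∀ (φ : E →+* ℂ) (z : ℂ), (g.map φ).eval z = 0 → ‖z‖ ^ 2 = (N : ℝ) ^ w

section rep

variable {F : Sub} {k : Type} [NormedField k] {n N : ℕ}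

/-- `ρ` is continuous, unramified outside the prime numbers in `S` and `p`, and the Frobenius
polynomials at the places above the prime numbers in `T` are integral over `E` and pure of
weight `w` -/
structure Admissible {E : Type} [Field E] (ι : E →+* k) (w p : ℕ) (S T : Finset ℕ)
    (ρ : F.fixingSubgroup →* GL (Fin n) k) : Prop where
  continuous : Continuous ρ
  unramified : ∀ q : ℕ, q.Prime → q ∉ S → q ≠ p → ∀ P : Ideal ZBar, P.IsMaximal →
    (q : ZBar) ∈ P → ∀ τ : F.fixingSubgroup, Inertia P τ → ρ τ = 1
  pure : ∀ q ∈ T, ∀ P : Ideal ZBar, P.IsMaximal → (q : ZBar) ∈ P →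
    ∀ σ : F.fixingSubgroup, Frobenius P σ →
      IntegralPure ι w (norm (P.under (𝓞 F))) (ρ σ : Matrix (Fin n) (Fin n) k).charpoly

/-- `ρ` is irreducible -/
def Irreducible (ρ : F.fixingSubgroup →* GL (Fin n) k) : Prop :=
  0 < n ∧ ∀ X : Submodule k (Fin n → k),
    (∀ g, ∀ x ∈ X, (ρ g : Matrix (Fin n) (Fin n) k).mulVec x ∈ X) → X = ⊥ ∨ X = ⊤

/-- `ρ` is a subquotient of `W`: there is a stable subspace `Y` of the space of `W` with an
equivariant linear map from `Y` onto the space of `ρ` (extended in some way to a linear map `f` on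
the space of `W`) -/
def Subquotient (ρ : F.fixingSubgroup →* GL (Fin n) k) (W : F.fixingSubgroup →* GL (Fin N) k) :
    Prop :=
  ∃ (Y : Submodule k (Fin N → k)) (f : (Fin N → k) →ₗ[k] (Fin n → k)),
    (∀ g, ∀ y ∈ Y, (W g : Matrix (Fin N) (Fin N) k).mulVec y ∈ Y) ∧ Y.map f = ⊤ ∧
    ∀ g, ∀ y ∈ Y, f ((W g : Matrix (Fin N) (Fin N) k).mulVec y) =
      (ρ g : Matrix (Fin n) (Fin n) k).mulVec (f y)

/-- the matrices of `W` are integral: `O ^ N` is a stable lattice -/
def Integral (W : F.fixingSubgroup →* GL (Fin N) k) : Prop :=
  ∀ g i j, ‖(W g : Matrix (Fin N) (Fin N) k) i j‖ ≤ 1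

/-- `ρ` occurs in `W` modulo `p ^ m`: in some basis the matrices of `ρ` are integral (this is the
choice of a stable lattice `Λ`), and every element `∑ c_g g` of the group ring with integral
coefficients which is zero modulo `p ^ m` on `W` is zero modulo `p ^ m` on `ρ` -/
def OccursModulo (p m : ℕ) (ρ : F.fixingSubgroup →* GL (Fin n) k)
    (W : F.fixingSubgroup →* GL (Fin N) k) : Prop :=
  ∃ A : GL (Fin n) k,
    (∀ g i j, ‖((A * ρ g * A⁻¹ : GL (Fin n) k) : Matrix (Fin n) (Fin n) k) i j‖ ≤ 1) ∧
    ∀ (s : Finset F.fixingSubgroup) (c : F.fixingSubgroup → k), (∀ g ∈ s, ‖c g‖ ≤ 1) →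
      (∀ i j, ‖(∑ g ∈ s, c g • (W g : Matrix (Fin N) (Fin N) k)) i j‖ ≤ ((p : ℝ) ^ m)⁻¹) →
      ∀ i j, ‖(∑ g ∈ s, c g • ((A * ρ g * A⁻¹ : GL (Fin n) k) : Matrix (Fin n) (Fin n) k)) i j‖ ≤
        ((p : ℝ) ^ m)⁻¹

end rep

/-- **One power of `p` decides.**  There are a finite set `T` of prime numbers and one number `m`, such
that for all irreducible admissible `ρ` of dimension `n` and all integral admissible `W` of
dimension at most `N`: `ρ` is a subquotient of `W` if and only if `ρ` occurs in `W` modulo `p ^ m`, and
then it occurs in `W` modulo all powers of `p`. -/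
theorem result (F : Sub) (hF : FiniteDimensional ℚ F) (p : ℕ) [Fact p.Prime] (k : Type)
    [NormedField k] [NormedAlgebra ℚ_[p] k] (hk : FiniteDimensional ℚ_[p] k)
    (E : Type) [Field E] [NumberField E] (ι : E →+* k) (w n N : ℕ) (S : Finset ℕ) :
    ∃ (T : Finset ℕ) (m : ℕ), (∀ q ∈ T, q.Prime ∧ q ∉ S ∧ q ≠ p) ∧
      ∀ ρ : F.fixingSubgroup →* GL (Fin n) k, Admissible ι w p S T ρ → Irreducible ρ →
        ∀ N' ≤ N, ∀ W : F.fixingSubgroup →* GL (Fin N') k,
          Admissible ι w p S T W → Integral W →
            (Subquotient ρ W ↔ OccursModulo p m ρ W) ∧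
            (Subquotient ρ W → ∀ m', OccursModulo p m' ρ W) := by
  classical
  have hp : p.Prime := Fact.out
  obtain ⟨S', hS'⟩ : ∃ S' : Finset ℕ, S' = (insert p S).filter Nat.Prime := ⟨_, rfl⟩
  have hS'p : ∀ q ∈ S', q.Prime := by
    intro q hq
    rw [hS'] at hq
    exact (Finset.mem_filter.1 hq).2
  have hS'iff : ∀ q : ℕ, q.Prime → (q ∉ S' ↔ q ∉ S ∧ q ≠ p) := by
    intro q hq
    rw [hS', Finset.mem_filter, Finset.mem_insert, not_and', not_or]
    constructor
    · intro h
      exact ⟨(h hq).2, (h hq).1⟩
    · intro h _
      exact ⟨h.2, h.1⟩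
  let Φ : ℕ → Ideal (𝓞 F) → Set k[X] := fun r v =>
    {f | IntegralPure ι w (norm v) f ∧ f.Monic ∧ f.natDegree = r}
  have hΦ : ∀ r v, (Φ r v).Finite := by
    intro r v
    refine (Pool.Agent.helper972_fp.pure_finite ι r w (norm v)).subset ?_
    rintro _ ⟨⟨g, rfl, h1, h2⟩, h3, h4⟩
    refine ⟨g, rfl, ?_, ?_, h1, h2⟩
    · have h5 : ι g.leadingCoeff = 1 := by
        rw [← Polynomial.leadingCoeff_map ι]
        exact h3
      exact ι.injective (h5.trans (map_one ι).symm)
    · rwa [Polynomial.natDegree_map] at h4
  have hAdm : ∀ {r : ℕ} {T : Finset ℕ} {ρ : F.fixingSubgroup →* GL (Fin r) k},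
      Admissible ι w p S T ρ → Pool.Agent.helper972_fp.Adm S' ρ ∧
        ∀ q ∈ T, Pool.Agent.helper972_fp.At (Φ r) ρ q := by
    intro r T ρ h
    refine ⟨⟨h.continuous, fun q hq hqS P hP hqP τ hτ => ?_⟩, fun q hq P hP hqP σ hσ => ?_⟩
    · have h3 := (hS'iff q hq).1 hqS
      exact h.unramified q hq h3.1 h3.2 P hP hqP τ hτ
    · refine ⟨h.pure q hq P hP hqP σ hσ, Matrix.charpoly_monic _, ?_⟩
      rw [Matrix.charpoly_natDegree_eq_dim, Fintype.card_fin]
  choose T m hT hTm using fun N' : ℕ =>
    Pool.Agent.H52.TL.level (F := F) (k := k) p n N' S' hS'p (Φ n) (Φ N') (hΦ n) (hΦ N')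
  refine ⟨(Finset.range (N + 1)).biUnion T, (Finset.range (N + 1)).sup m, ?_, ?_⟩
  · intro q hq
    rw [Finset.mem_biUnion] at hq
    obtain ⟨N', -, hq⟩ := hq
    exact ⟨(hT N' q hq).1, (hS'iff q (hT N' q hq).1).1 (hT N' q hq).2⟩
  · intro ρ hρ hirr N' hN' W hW hint
    have hmem : N' ∈ Finset.range (N + 1) := Finset.mem_range.2 (by omega)
    have hconv : Subquotient ρ W → ∀ m', OccursModulo p m' ρ W := fun h m' =>
      Pool.Agent.H52.TL.occ_of_isSub (p := p) hint h m'
    refine ⟨⟨fun h => hconv h _, fun h => ?_⟩, hconv⟩
    obtain ⟨h1, h2⟩ := hAdm hρ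
    obtain ⟨h3, h4⟩ := hAdm hW
    exact hTm N' ρ W h1 (fun q hq => h2 q (Finset.mem_biUnion.2 ⟨N', hmem, hq⟩)) hirr h3
      (fun q hq => h4 q (Finset.mem_biUnion.2 ⟨N', hmem, hq⟩))
      (Pool.Agent.H52.TL.Occ.mono (Finset.le_sup (f := m) hmem) h)

end Pool.Agent.Results.MP_e1ffa3_nt.OneTorsionLevel
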